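import Pool.Agent.MP_9431a4_pr.Greedy
import Pool.Agent.MP_9431a4_pr.Exists

/-!
The number of edges of the `Q_2`-free process in the hypercube, with explicit constants, an
explicit range of `d` and an explicit bound for the failure probability.
-/

set_option autoImplicit false

open scoped Classical

namespace Pool.Agent.Results.MP_9431a4_pr.ExplicitOrder

variable {d : ℕ}

/-- The vertex obtained from `x` by changing the coordinate `i`. -/
def flip (x : Fin d → Bool) (i : Fin d) : Fin d → Bool := Function.update x i (!x i)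

theorem flip_eq (x : Fin d → Bool) (i : Fin d) : flip x i = Pool.Agent.Q2F.fl x i := rfl

theorem flip_flip (x : Fin d → Bool) (i : Fin d) : flip (flip x i) i = x := by
  simp only [flip_eq]
  exact Pool.Agent.Q2F.fl_fl x i

/-- The hypercube graph `Q_d`: two vertices are adjacent if they differ in exactly one
coordinate. -/
def cube (d : ℕ) : SimpleGraph (Fin d → Bool) where
  Adj x y := ∃ i, y = flip x i
  symm := ⟨by
    rintro x y ⟨i, rfl⟩
    exact ⟨i, (flip_flip x i).symm⟩⟩
  loopless := ⟨by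
    rintro x ⟨i, h⟩
    exact Pool.Agent.Q2F.ne_fl x i h⟩

/-- The set `G` of edges contains a copy of `Q_2`: the four edges of a 2-dimensional face. -/
def HasFace (G : Set (Sym2 (Fin d → Bool))) : Prop :=
  ∃ (x : Fin d → Bool) (i j : Fin d), i ≠ j ∧ s(x, flip x i) ∈ G ∧ s(x, flip x j) ∈ G ∧
    s(flip x i, flip (flip x i) j) ∈ G ∧ s(flip x j, flip (flip x j) i) ∈ G

/-- One step of the process: the edge `e` is added if this makes no copy of `Q_2`. -/
noncomputable def step (G : Set (Sym2 (Fin d → Bool))) (e : Sym2 (Fin d → Bool)) :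
    Set (Sym2 (Fin d → Bool)) :=
  if HasFace (insert e G) then G else insert e G

/-- The final graph of the process for the order `l` of the edges. -/
noncomputable def run (l : List (Sym2 (Fin d → Bool))) : Set (Sym2 (Fin d → Bool)) :=
  l.foldl step ∅

/-- The orders of the edges of `Q_d`. -/
abbrev Order (d : ℕ) : Type := Fin (Nat.card (cube d).edgeSet) ≃ (cube d).edgeSet

/-- The number `M` of edges of the final graph. -/
noncomputable def M (σ : Order d) : ℕ :=
  (run (List.ofFn fun k => (σ k : Sym2 (Fin d → Bool)))).ncard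

/-- The probability of an event for a uniformly random order of the edges. -/
noncomputable def prob (E : Order d → Prop) : ℝ :=
  (Nat.card {σ : Order d // E σ} : ℝ) / (Nat.card (Order d) : ℝ)

section bridge

open Pool.Agent.Q2F

/-- The edge of the graph which belongs to a pair. -/
def toSym (e : Edge d) : Sym2 (Fin d → Bool) := s(bs e, fl (bs e) (dir e))

theorem toSym_ed (x : Vx d) (i : Fin d) : toSym (ed x i) = s(x, fl x i) := by
  unfold toSym
  rw [dir_ed]
  rcases bs_ed x i with h | h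
  · rw [h]
  · rw [h, fl_fl]
    exact Sym2.eq_swap

theorem toSym_inj : Function.Injective (toSym : Edge d → Sym2 (Fin d → Bool)) := by
  intro e f h
  obtain ⟨x, i, rfl⟩ := exists_ed e
  obtain ⟨y, j, rfl⟩ := exists_ed f
  rw [toSym_ed, toSym_ed, Sym2.eq_iff] at h
  rw [ed_eq_iff]
  rcases h with ⟨rfl, h⟩ | ⟨h1, h2⟩
  · exact ⟨fl_left_inj.mp h, Or.inl rfl⟩
  · have h3 : i = j := by
      rw [h1, ← h1] at h2
      have h4 : fl x i = fl x j := by
        rw [h2, h1, fl_fl]
      exact fl_left_inj.mp h4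
    subst h3
    exact ⟨rfl, Or.inr h1⟩

theorem toSym_mem (e : Edge d) : toSym e ∈ (cube d).edgeSet := by
  obtain ⟨x, i, rfl⟩ := exists_ed e
  rw [toSym_ed, SimpleGraph.mem_edgeSet]
  exact ⟨i, rfl⟩

/-- the bijection -/
noncomputable def phi (d : ℕ) : Edge d ≃ (cube d).edgeSet :=
  Equiv.ofBijective (fun e => ⟨toSym e, toSym_mem e⟩) (by
    constructor
    · intro e f h
      exact toSym_inj (congrArg Subtype.val h)
    · rintro ⟨e, he⟩
      induction e using Sym2.ind with
      | _ x y =>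
        rw [SimpleGraph.mem_edgeSet] at he
        obtain ⟨i, rfl⟩ := he
        exact ⟨ed x i, Subtype.ext (toSym_ed x i)⟩)

theorem phi_val (e : Edge d) : ((phi d e : (cube d).edgeSet) : Sym2 (Fin d → Bool)) = toSym e :=
  rfl

theorem mem_img {S : Finset (Edge d)} {x : Vx d} {i : Fin d} :
    s(x, fl x i) ∈ toSym '' (S : Set (Edge d)) ↔ ed x i ∈ S := by
  rw [← toSym_ed, toSym_inj.mem_set_image, Finset.mem_coe]

/-- faces in the library's words -/
def FF (S : Finset (Edge d)) : Prop :=
  ∃ (x : Vx d) (i j : Fin d), i ≠ j ∧ ed x i ∈ S ∧ ed x j ∈ S ∧ ed (fl x i) j ∈ S ∧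
    ed (fl x j) i ∈ S

theorem hasFace_img (S : Finset (Edge d)) : HasFace (toSym '' (S : Set (Edge d))) ↔ FF S := by
  unfold HasFace FF
  simp only [flip_eq, mem_img]

theorem closed_of_FF {S : Finset (Edge d)} {g : Edge d} (hS : ¬ FF S) (h : FF (insert g S)) :
    Closed S g := by
  obtain ⟨x, i, j, hij, h1, h2, h3, h4⟩ := h
  have key : ∀ r, r ≠ dir g → (∀ f ∈ nb g r, f ∈ insert g S) → Closed S g := by
    intro r hr hf
    refine ⟨r, hr, fun f hfn => ?_⟩
    rcases Finset.mem_insert.mp (hf f hfn) with h | h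
    · exact absurd (h ▸ hfn) (not_mem_nb hr)
    · exact h
  rw [Finset.mem_insert] at h1 h2 h3 h4
  by_cases e1 : ed x i = g
  · subst e1
    refine key j (by rw [dir_ed]; exact hij.symm) (fun f hf => ?_)
    rw [mem_nb_ed] at hf
    rw [Finset.mem_insert]
    rcases hf with rfl | rfl | rfl
    · exact h2
    · exact h3
    · exact h4
  by_cases e2 : ed x j = g
  · subst e2
    refine key i (by rw [dir_ed]; exact hij) (fun f hf => ?_)
    rw [mem_nb_ed] at hf
    rw [Finset.mem_insert]
    rcases hf with rfl | rfl | rfl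
    · exact h1
    · exact h4
    · exact h3
  by_cases e3 : ed (fl x i) j = g
  · subst e3
    refine key i (by rw [dir_ed]; exact hij) (fun f hf => ?_)
    rw [mem_nb_ed, fl_fl, ed_fl, fl_comm x i j, ed_fl] at hf
    rw [Finset.mem_insert]
    rcases hf with rfl | rfl | rfl
    · exact h1
    · exact h4
    · exact h2
  by_cases e4 : ed (fl x j) i = g
  · subst e4
    refine key j (by rw [dir_ed]; exact hij.symm) (fun f hf => ?_)
    rw [mem_nb_ed, fl_fl, ed_fl, fl_comm x j i, ed_fl] at hf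
    rw [Finset.mem_insert]
    rcases hf with rfl | rfl | rfl
    · exact h2
    · exact h3
    · exact h1
  exact absurd ⟨x, i, j, hij, h1.resolve_left e1, h2.resolve_left e2, h3.resolve_left e3,
    h4.resolve_left e4⟩ hS

theorem FF_of_closed {S : Finset (Edge d)} {g : Edge d} (h : Closed S g) : FF (insert g S) := by
  obtain ⟨r, hr, h⟩ := h
  obtain ⟨x, p, rfl⟩ := exists_ed g
  rw [dir_ed] at hr
  refine ⟨x, p, r, hr.symm, Finset.mem_insert_self _ _, ?_, ?_, ?_⟩ <;>
    apply Finset.mem_insert_of_mem <;> apply h <;> rw [mem_nb_ed]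
  · exact Or.inl rfl
  · exact Or.inr (Or.inl rfl)
  · exact Or.inr (Or.inr rfl)

theorem run_append (l : List (Sym2 (Fin d → Bool))) (e : Sym2 (Fin d → Bool)) :
    run (l ++ [e]) = step (run l) e := by
  unfold run
  rw [List.foldl_append]
  rfl

theorem run_map (l : List (Edge d)) :
    run (l.map toSym) = toSym '' (acc l : Set (Edge d)) ∧ ¬ FF (acc l) := by
  induction l using List.reverseRecOn with
  | nil =>
    constructor
    · simp [run]
    · rintro ⟨x, i, j, _, h, _⟩
      simp at h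
  | append_singleton l g ih =>
    obtain ⟨ih1, ih2⟩ := ih
    rw [List.map_append, List.map_singleton, run_append, ih1, acc_append]
    have hins : insert (toSym g) (toSym '' (acc l : Set (Edge d))) =
        toSym '' ((insert g (acc l) : Finset (Edge d)) : Set (Edge d)) := by
      rw [Finset.coe_insert, Set.image_insert_eq]
    unfold step accStep
    rw [hins, hasFace_img]
    by_cases h : Closed (acc l) g
    · rw [if_pos (FF_of_closed h), if_pos h]
      exact ⟨rfl, ih2⟩
    · have h' : ¬ FF (insert g (acc l)) := fun h2 => h (closed_of_FF ih2 h2)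
      rw [if_neg h', if_neg h]
      exact ⟨rfl, h'⟩

theorem card_eq (d : ℕ) : Fintype.card (Edge d) = Nat.card (cube d).edgeSet := by
  rw [← Nat.card_eq_fintype_card]
  exact Nat.card_congr (phi d)

/-- orders and numberings -/
noncomputable def psi (d : ℕ) : Order d ≃ (Edge d ≃ Fin (Nat.card (cube d).edgeSet)) where
  toFun σ := (σ.trans (phi d).symm).symm
  invFun τ := τ.symm.trans (phi d)
  left_inv σ := by
    apply Equiv.ext
    intro k
    exact (phi d).apply_symm_apply (σ k)
  right_inv τ := by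
    apply Equiv.ext
    intro e
    show τ ((phi d).symm (phi d e)) = τ e
    rw [Equiv.symm_apply_apply]

theorem M_eq (σ : Order d) : M σ = (acc (ordl (psi d σ))).card := by
  have h1 : (List.ofFn fun k => (σ k : Sym2 (Fin d → Bool))) =
      (ordl (psi d σ)).map toSym := by
    unfold ordl
    rw [List.map_ofFn]
    congr 1
    funext k
    have h2 : (psi d σ).symm k = (phi d).symm (σ k) := rfl
    show (σ k : Sym2 (Fin d → Bool)) = toSym ((psi d σ).symm k)
    rw [h2, ← phi_val, Equiv.apply_symm_apply]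
  unfold M
  rw [h1, (run_map _).1, Set.ncard_image_of_injective _ toSym_inj, Set.ncard_coe_finset]

theorem prob_eq (P : ℕ → Prop) : prob (fun σ : Order d => P (M σ)) =
    Pr (fun ω : List (Edge d) => P (acc ω).card) := by
  rw [Pr_eq_ratio (card_eq d)]
  unfold prob
  congr 2
  · refine Nat.card_congr (Equiv.subtypeEquiv (psi d) (fun σ => ?_))
    rw [M_eq]
  · exact Nat.card_congr (psi d)

end bridge

theorem exp_large {x : ℝ} (hx : 1000 ≤ x) :
    10 ^ 12 * (1 + x ^ ((1 : ℝ) / 3)) ^ 12 ≤ Real.exp x := by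
  have hx0 : 0 < x := by linarith
  have h1 : x ^ ((1 : ℝ) / 3) ≤ x := by
    conv_rhs => rw [← Real.rpow_one x]
    exact Real.rpow_le_rpow_of_exponent_le (by linarith) (by norm_num)
  have h2 : (0 : ℝ) ≤ x ^ ((1 : ℝ) / 3) := Real.rpow_nonneg hx0.le _
  have h3 := Real.pow_div_factorial_le_exp (x / 12) (by positivity) 3
  have h4 : ((Nat.factorial 3 : ℕ) : ℝ) = 6 := by norm_num [Nat.factorial]
  rw [h4] at h3
  have h5 : 10 * (1 + x) ≤ (x / 12) ^ 3 / 6 := by
    have h6 : (x / 12) ^ 3 / 6 = x ^ 3 / 10368 := by ring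
    rw [h6, le_div_iff₀ (by norm_num)]
    have h7 : 1000 * 1000 ≤ x * x := mul_le_mul hx hx (by norm_num) hx0.le
    have h8 : x ^ 3 = x * x * x := by ring
    have h9 : 1000 * 1000 * x ≤ x * x * x := mul_le_mul_of_nonneg_right h7 hx0.le
    rw [h8]
    linarith
  have h6 : 10 * (1 + x ^ ((1 : ℝ) / 3)) ≤ Real.exp (x / 12) := by linarith
  calc 10 ^ 12 * (1 + x ^ ((1 : ℝ) / 3)) ^ 12 = (10 * (1 + x ^ ((1 : ℝ) / 3))) ^ 12 := by
        rw [mul_pow]
    _ ≤ Real.exp (x / 12) ^ 12 := pow_le_pow_left₀ (by positivity) h6 12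
    _ = Real.exp x := by
        rw [← Real.exp_nat_mul]
        congr 1
        push_cast
        ring

/-- **The order of magnitude of the `Q_2`-free process, explicit.** For every `d ≥ e^12000000`, with
probability at least `1 - d^(-1/12000)` the final graph has between `1/184` and `88000` times
`(log d)^(1/3) d^(2/3) 2^d` edges. -/
theorem result (d : ℕ) (hd : Real.exp 12000000 ≤ d) :
    1 - (d : ℝ) ^ (-(1 / 12000 : ℝ)) ≤ prob (fun σ : Order d =>
      1 / 184 * (Real.log d ^ ((1 : ℝ) / 3) * (d : ℝ) ^ ((2 : ℝ) / 3) * 2 ^ d) ≤ (M σ : ℝ) ∧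
      (M σ : ℝ) ≤ 88000 * (Real.log d ^ ((1 : ℝ) / 3) * (d : ℝ) ^ ((2 : ℝ) / 3) * 2 ^ d)) := by
  have hd0 : (0 : ℝ) < d := lt_of_lt_of_le (Real.exp_pos _) hd
  have hd1 : 1 ≤ d := by
    have : d ≠ 0 := by
      rintro rfl
      simp at hd0
    omega
  have hlog : 12000000 ≤ Real.log d := by
    rw [Real.le_log_iff_exp_le hd0]
    exact hd
  have hx : 1000 ≤ Real.log d / 12000 := by linarith
  have hmain := Pool.Agent.Q2F.mkPar_main d _ rfl hd1 hx (exp_large hx)
  rw [Pool.Agent.Q2F.Pr_compl] at hmain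
  have he : Real.exp (-(Real.log d / 12000)) = (d : ℝ) ^ (-(1 / 12000 : ℝ)) := by
    rw [Real.rpow_def_of_pos hd0]
    congr 1
    ring
  rw [he] at hmain
  set L : ℝ := Real.log d ^ ((1 : ℝ) / 3) * (d : ℝ) ^ ((2 : ℝ) / 3) * 2 ^ d with hL
  have hL0 : 0 ≤ L := by
    rw [hL]
    have := Real.log_natCast_nonneg d
    positivity
  have hc1 : (12000 : ℝ) ^ ((1 : ℝ) / 3) ≤ 23 := by
    have h : (23 : ℝ) = ((23 : ℝ) ^ (3 : ℕ)) ^ ((1 : ℝ) / 3) := by
      rw [← Real.rpow_natCast, ← Real.rpow_mul (by norm_num)]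
      norm_num
    rw [h]
    exact Real.rpow_le_rpow (by norm_num) (by norm_num) (by norm_num)
  have hc2 : (250 / 11 : ℝ) ≤ (12000 : ℝ) ^ ((1 : ℝ) / 3) := by
    have h : (250 / 11 : ℝ) = ((250 / 11 : ℝ) ^ (3 : ℕ)) ^ ((1 : ℝ) / 3) := by
      rw [← Real.rpow_natCast, ← Real.rpow_mul (by norm_num)]
      norm_num
    rw [h]
    exact Real.rpow_le_rpow (by norm_num) (by norm_num) (by norm_num)
  have hc0 : (0 : ℝ) < (12000 : ℝ) ^ ((1 : ℝ) / 3) := by positivity
  rw [prob_eq (fun m : ℕ => 1 / 184 * L ≤ (m : ℝ) ∧ (m : ℝ) ≤ 88000 * L)]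
  have hmono : Pool.Agent.Q2F.Pr (fun ω : List (Pool.Agent.Q2F.Edge d) =>
      (1 / (8 * (12000 : ℝ) ^ ((1 : ℝ) / 3))) * L ≤ ((Pool.Agent.Q2F.acc ω).card : ℝ) ∧
      ((Pool.Agent.Q2F.acc ω).card : ℝ) ≤ (2000000 / (12000 : ℝ) ^ ((1 : ℝ) / 3)) * L) ≤
      Pool.Agent.Q2F.Pr (fun ω : List (Pool.Agent.Q2F.Edge d) =>
      1 / 184 * L ≤ ((Pool.Agent.Q2F.acc ω).card : ℝ) ∧
      ((Pool.Agent.Q2F.acc ω).card : ℝ) ≤ 88000 * L) := by
    apply Pool.Agent.Q2F.Pr_mono
    rintro ω _ _ ⟨h1, h2⟩
    constructor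
    · refine le_trans (mul_le_mul_of_nonneg_right ?_ hL0) h1
      exact one_div_le_one_div_of_le (by positivity) (by linarith)
    · refine h2.trans (mul_le_mul_of_nonneg_right ?_ hL0)
      rw [div_le_iff₀ hc0]
      linarith
  linarith

end Pool.Agent.Results.MP_9431a4_pr.ExplicitOrder
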